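import Pool.Agent.H95.HL.Alp

/-!
# Fermat numbers are prime for the integral values of algebraic functions

Let `P ≠ 0` be an integral polynomial in two variables. For all large `m`, every integer `x` with `P (x, F_m) = 0` is
divisible by the Fermat number `F_m = 2 ^ 2 ^ m + 1` or coprime to it. In particular no divisor `1 < d < F_m` of a large Fermat
number satisfies `P (d, F_m) = 0`, and if `F_m` divides a product of such integers `x`, then it divides one of them.

The proof: the branches at infinity of the curve `P (x, y + 1) = 0` have real Puiseux expansions with algebraic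
coefficients (pool library); by the Subspace theorem (pool library) the integral values at `y = 2 ^ M`, `M = q s + i`, are values of
a rational polynomial `A` at `2 ^ s`; and `2 ^ i T ^ q + 1` is irreducible if `2 ^ m = q s + i`, so it divides `A` or is coprime to it.
-/

set_option autoImplicit false

namespace Pool.Agent.Results.MP_37e5fa_nt.AlgebraicFunctions

open MvPolynomial

theorem eval_shift (P : MvPolynomial (Fin 2) ℤ) (x y : ℤ) :
    eval ![x, y] (bind₁ (![X 0, X 1 + 1] : Fin 2 → MvPolynomial (Fin 2) ℤ) P) = eval ![x, y + 1] P := by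
  rw [← coe_aeval_eq_eval, RingHom.coe_coe, aeval_bind₁, ← coe_aeval_eq_eval, RingHom.coe_coe]
  congr 2
  funext i
  fin_cases i <;> simp

/-- **Main theorem.** -/
theorem result (P : MvPolynomial (Fin 2) ℤ) (hP : P ≠ 0) :
    ∃ m₀ : ℕ, ∀ m : ℕ, m₀ ≤ m → ∀ x : ℤ, MvPolynomial.eval ![x, 2 ^ 2 ^ m + 1] P = 0 →
      (2 ^ 2 ^ m + 1 : ℤ) ∣ x ∨ Int.gcd x (2 ^ 2 ^ m + 1) = 1 := by
  have hP' : bind₁ (![X 0, X 1 + 1] : Fin 2 → MvPolynomial (Fin 2) ℤ) P ≠ 0 := by
    intro h
    apply hP
    refine MvPolynomial.funext fun v => ?_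
    have h1 := eval_shift P (v 0) (v 1 - 1)
    rw [h, map_zero, sub_add_cancel] at h1
    rw [map_zero, h1]
    congr 2
    funext i
    fin_cases i <;> rfl
  obtain ⟨m₀, hm₀⟩ := Pool.Agent.H95.HL.algprime _ hP'
  refine ⟨m₀, fun m hm x hx => hm₀ m hm x ?_⟩
  rw [eval_shift]
  exact hx

end Pool.Agent.Results.MP_37e5fa_nt.AlgebraicFunctions
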