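import Pool.Agent.H95.HL.Cur
import Pool.Agent.H95.HL.Div
import Pool.Agent.H95.HL.Fer
import Pool.Agent.H95.HL.Fin2
import Pool.Agent.H95.HL.One
import Pool.Agent.H59.HL.Int

/-!
# The hyperbola law for the divisors of Fermat numbers

For `ε > 0` and all large `m`, every factorisation `F_m = 2 ^ 2 ^ m + 1 = d e`, `d, e > 1`, satisfies
`n * 2 ^ m ≤ (1 + ε) * log₂ d * log₂ e`, where `2 ^ n` is the exact power of two dividing `d - 1` (equivalently
`e - 1`). So a divisor `d = F_m ^ α` is at most `≡ 1` modulo `2 ^ ((1 + ε) (1 - α) log₂ d)`.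

For the numbers `2 ^ M + 1`, `M` arbitrary, the same law holds with exceptions which are all algebraic: they are values
`d = A (2 ^ s)`, `e = B (2 ^ s)` of one of finitely many (`k ≤ K`) polynomial identities `A B = 2 ^ i T ^ k + 1` with integral
coefficients, `M = k s + i`. Exceptions exist for `ε < 1 / 2`, for instance `2 ^ (3 s) + 1 = (2 ^ s + 1) (4 ^ s - 2 ^ s + 1)`;
the factorisation of `4 t ^ 4 + 1`, `t = 2 ^ s`, gives equality asymptotically.

The proof: the exceptions lie on finitely many plane curves (`Pool/Agent/H95/Hyp/Law.lean`, Coppersmith's method); a branch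
at infinity of such a curve has a real Puiseux expansion with algebraic coefficients (pool library); by the Subspace
theorem (pool library) its integral values at powers of two are values of a rational polynomial in `2 ^ s`
(`Pool/Agent/H95/HL/Grm.lean`), which divides `2 ^ i T ^ k + 1` (`Div.lean`); for Fermat numbers this contradicts the theorem
on short sums of powers of two (`Fer.lean`). Authors of the modules: helper95, helper1 (`Div`), helper52 (`Cur`, `One`),
helper59 (`Fer`, `Pool/Agent/H59/HL/Int.lean`).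
-/

set_option autoImplicit false

namespace Pool.Agent.Results.MP_37e5fa_nt.HyperbolaLaw

open Polynomial

/-- **Main theorem.** -/
theorem result (ε : ℝ) (hε : 0 < ε) :
    ∃ K M₀ : ℕ,
      (∀ M : ℕ, M₀ ≤ M → ∀ d e : ℕ, d * e = 2 ^ M + 1 → 1 < d → 1 < e →
        (1 + ε) * (Real.logb 2 d * Real.logb 2 e) < padicValNat 2 (d - 1) * M →
        ∃ (k i s : ℕ) (A B : ℤ[X]), k ≤ K ∧ i < k ∧ M = k * s + i ∧ 0 < A.natDegree ∧ 0 < B.natDegree ∧
          A * B = C ((2 : ℤ) ^ i) * X ^ k + 1 ∧ (d : ℤ) = A.eval (2 ^ s) ∧ (e : ℤ) = B.eval (2 ^ s)) ∧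
      ∀ m : ℕ, M₀ ≤ m → ∀ d e : ℕ, d * e = 2 ^ 2 ^ m + 1 → 1 < d → 1 < e →
        padicValNat 2 (d - 1) * 2 ^ m ≤ (1 + ε) * (Real.logb 2 d * Real.logb 2 e) :=
  Pool.Agent.H95.HL.final2 Pool.Agent.H95.HL.t_CUR Pool.Agent.H95.HL.t_DIV Pool.Agent.H95.HL.t_FER
    Pool.Agent.H59.HL.t_INT Pool.Agent.H95.HL.t_ONE ε hε

end Pool.Agent.Results.MP_37e5fa_nt.HyperbolaLaw
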