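import Mathlib
import Pool.Agent.H95.EB.Fin

/-!
# Fermat numbers behave like primes for short sums of `S`-units

Let `β ≥ 2` be even and no odd power (for instance `β = 2`) and `F = β ^ (2 ^ m) + 1`, which is the
Fermat number `F_m` for `β = 2`. Let a finite set `S` of primes and numbers `k`, `r`, `C`, `ε > 0`
be given. There are `δ > 0` and `m₀` such that for all `m ≥ m₀` the following holds for the integers
of the form `z = c_1 u_1 + ⋯ + c_k u_k`, where the `c_i` are integers with `|c_i| ≤ F ^ δ` and the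
`u_i` are `S`-units (up to the sign products of positive and negative powers of primes of `S`) whose
numerators and denominators are at most `F ^ C`:

* `F` divides `z`, or the greatest common divisor of `z` and `F` is at most `F ^ ε`. So no multiple
  of a divisor `d > F ^ ε` of `F`, and in particular no such divisor `d < F`, is of this form, except
  for the multiples of `F`;
* if `F` divides the product of `r` integers of this form, then it divides one of them.
-/

set_option autoImplicit false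

namespace Pool.Agent.Results.MP_37e5fa_nt.PrimeForUnitSums

/-- up to its sign, `x` is a product of powers (with positive or negative exponents) of primes
of `S` -/
def IsSUnit (S : Finset ℕ) (x : ℚ) : Prop :=
  x ≠ 0 ∧ x.num.natAbs.primeFactors ⊆ S ∧ x.den.primeFactors ⊆ S

/-- `z` is a sum of `k` products `c u`, where `c` is an integer with `|c| ≤ M` and `u` an `S`-unit
whose numerator and denominator are at most `H` (in absolute value) -/
def Short (S : Finset ℕ) (k : ℕ) (M H : ℝ) (z : ℤ) : Prop :=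
  ∃ (c : Fin k → ℤ) (u : Fin k → ℚ), (∀ i, |(c i : ℝ)| ≤ M) ∧
    (∀ i, IsSUnit S (u i) ∧ |((u i).num : ℝ)| ≤ H ∧ ((u i).den : ℝ) ≤ H) ∧
    (z : ℚ) = ∑ i, c i * u i

/-- **Main theorem.** -/
theorem result (β : ℕ) (hβ : Even β) (hβ2 : 2 ≤ β)
    (hodd : ∀ p : ℕ, p.Prime → p ≠ 2 → ∀ c : ℕ, c ^ p ≠ β) (S : Finset ℕ) (k r : ℕ) (C ε : ℝ)
    (hε : 0 < ε) :
    ∃ δ : ℝ, 0 < δ ∧ ∃ m₀ : ℕ, ∀ m : ℕ, m₀ ≤ m → ∀ F : ℕ, F = β ^ (2 ^ m) + 1 →
      (∀ z : ℤ, Short S k ((F : ℝ) ^ δ) ((F : ℝ) ^ C) z →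
        (F : ℤ) ∣ z ∨ (Int.gcd z F : ℝ) ≤ (F : ℝ) ^ ε) ∧
      (∀ z : Fin r → ℤ, (∀ i, Short S k ((F : ℝ) ^ δ) ((F : ℝ) ^ C) (z i)) →
        (F : ℤ) ∣ ∏ i, z i → ∃ i, (F : ℤ) ∣ z i) := by
  obtain ⟨δ, hδ, m₀, h⟩ := Pool.Agent.H95.EB.main β hβ hβ2 hodd S k C ε hε
  obtain ⟨δ', hδ', m₀', h'⟩ := Pool.Agent.H95.EB.euclid β hβ hβ2 hodd S k r C
  refine ⟨min δ δ', lt_min hδ hδ', max m₀ m₀', fun m hm F hF => ?_⟩
  have hF1 : (1 : ℝ) ≤ (F : ℝ) := by
    rw [hF]
    push_cast
    have : (0 : ℝ) < (β : ℝ) ^ (2 ^ m) := by positivity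
    linarith
  have hmono : ∀ (η : ℝ), min δ δ' ≤ η → ∀ z : ℤ,
      Short S k ((F : ℝ) ^ (min δ δ')) ((F : ℝ) ^ C) z →
      Pool.Agent.H95.EB.Short S k ((F : ℝ) ^ η) ((F : ℝ) ^ C) z := by
    rintro η hη z ⟨c, u, hc, hu, hz⟩
    exact ⟨c, u, fun i => (hc i).trans (Real.rpow_le_rpow_of_exponent_le hF1 hη), hu, hz⟩
  constructor
  · intro z hz
    have h1 := h m ((le_max_left _ _).trans hm) z
    rw [← hF] at h1
    exact h1 (hmono δ (min_le_left _ _) z hz)
  · intro z hz
    have h1 := h' m ((le_max_right _ _).trans hm) z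
    rw [← hF] at h1
    exact h1 (fun i => hmono δ' (min_le_right _ _) _ (hz i))

end Pool.Agent.Results.MP_37e5fa_nt.PrimeForUnitSums
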