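import Pool.Agent.H42.SF.Final

set_option autoImplicit false

/-!
# The squarefree part of the Fermat numbers

If `F_m = a y²` then `a ≥ c 16^m / m²`, with the explicit constant `c = 2^(-29)`. More generally, if
`4^n + 1 = a y²` then `a ≥ c n⁴ / (log n)²`. (The form of the prime factors of `F_m` gives only
`a > 2^(m+2)`.)

Proof. Let `a` be squarefree. In `ℚ(√a)` the prime `2` splits into `𝔭` and `𝔭'`, the number
`x + y √a`, `x = 2^n`, is a unit (of logarithm about `n log 2`), and the norm of `(1 + y √a) / 2` is
`-2^(2n-2)`. Both numbers are close to `1` in the completion at `𝔭'`. Every `2`-unit `γ` has a power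
which is a product of powers of `2` and of these two numbers, with a small exponent; so `γ`, divided by
its power of `2`, is `± 1` modulo a high power of `𝔭'`, and if it is not rational, it is large at one
of the real places (`Dat.key`). On the other hand, by Dirichlet's theorem there are for all
`κ, τ ≤ n / 4` elements of `𝔭^κ` of norm at most `2^κ (2 √a + 1)` with quotient of the real absolute
values about `4^τ`; if two of them generate the same ideal outside of `2`, then their quotient is a
small `2`-unit, thus rational. So there are about `n²` ideals of norm at most `2 √a + 1`, up to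
multiplicities which are small on average, but at most about `√a log a` such ideals exist
(`Dat.count2`).
-/

namespace Pool.Agent.Results.MP_37e5fa_nt.SquarefreePart

/-- **The squarefree part of the Fermat numbers.** (1) If `F_m = a y²` then `a ≥ 16^m / (2^29 m²)`.
(2) If `4^n + 1 = a y²` then `a ≥ n⁴ / (2^25 (⌊log₂ n⌋ + 1)²)`. -/
theorem result :
    (∀ m : ℕ, 1 ≤ m → ∀ a y : ℕ, Nat.fermatNumber m = a * y ^ 2 →
      16 ^ m ≤ 2 ^ 29 * m ^ 2 * a) ∧
    (∀ n : ℕ, 1 ≤ n → ∀ a y : ℕ, 4 ^ n + 1 = a * y ^ 2 →
      n ^ 4 ≤ 2 ^ 25 * (Nat.log 2 n + 1) ^ 2 * a) :=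
  ⟨H42.SF.fermat, H42.SF.main⟩

end Pool.Agent.Results.MP_37e5fa_nt.SquarefreePart
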